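import Pool.Agent.H53.Lib.R_seed8.H484R2.HomExt

/-! Extension of homomorphisms `𝓞 E → 𝔽_p` to `𝓞 E'` (existence, uniqueness) and the counting identity. -/

set_option autoImplicit false
open Polynomial NumberField Module

namespace Pool.Agent.H484R2

/-- the reduced quadratic map -/
def fp (b c : ℤ) (p : ℕ) (x : ZMod p) : ZMod p := x ^ 2 + b * x + c

section

variable {E : Type} [Field E] [NumberField E] {b c : ℤ}
variable {E' : Type} [Field E'] [NumberField E'] [Algebra E E']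
variable {y : 𝓞 E} {v : 𝓞 E'}

lemma hv_int (hv : (v : E') ^ 2 + b * v + c = algebraMap E E' y) :
    v ^ 2 + b * v + c = algebraMap (𝓞 E) (𝓞 E') y := by
  apply RingOfIntegers.coe_injective
  have e1 : ((algebraMap (𝓞 E) (𝓞 E') y : 𝓞 E') : E') = algebraMap E E' (y : E) := rfl
  change ((v ^ 2 + b * v + c : 𝓞 E') : E') = ((algebraMap (𝓞 E) (𝓞 E') y : 𝓞 E') : E')
  rw [e1, ← hv]
  simp only [map_add, map_mul, map_pow, map_intCast]

lemma ext_exists (hD : ¬ IsSquare (4 * (y : E) + b ^ 2 - 4 * c))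
    (hv : (v : E') ^ 2 + b * v + c = algebraMap E E' y) {N : ℕ}
    (hN : ∀ z : 𝓞 E', ∃ α β : 𝓞 E, (N : 𝓞 E') * z =
        algebraMap (𝓞 E) (𝓞 E') α + algebraMap (𝓞 E) (𝓞 E') β * v)
    {p : ℕ} [Fact p.Prime] (hp : (N : ZMod p) ≠ 0) (φ : 𝓞 E →+* ZMod p) {x : ZMod p}
    (hx : x ^ 2 + b * x + c = φ y) :
    ∃ φ' : 𝓞 E' →+* ZMod p, φ'.comp (algebraMap (𝓞 E) (𝓞 E')) = φ ∧ φ' v = x := by
  choose α β hαβ using hN
  have hv' := hv_int hv
  have huniq : ∀ (z : 𝓞 E') (a a' : 𝓞 E), (N : 𝓞 E') * z =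
      algebraMap (𝓞 E) (𝓞 E') a + algebraMap (𝓞 E) (𝓞 E') a' * v → α z = a ∧ β z = a' := by
    intro z a a' h
    rw [hαβ z] at h
    exact uniq_repr hD hv h
  let ι : 𝓞 E →+* 𝓞 E' := algebraMap (𝓞 E) (𝓞 E')
  have hmap : ∀ a : 𝓞 E, (N : ZMod p)⁻¹ * (φ (α (ι a)) + φ (β (ι a)) * x) = φ a := by
    intro a
    have h1 := huniq (ι a) (N * a) 0 (by rw [map_mul, map_natCast, map_zero, zero_mul, add_zero])
    rw [h1.1, h1.2, map_mul, map_natCast, map_zero, zero_mul, add_zero, inv_mul_cancel_left₀ hp]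
  refine ⟨⟨⟨⟨fun z => (N : ZMod p)⁻¹ * (φ (α z) + φ (β z) * x), ?_⟩, ?_⟩, ?_, ?_⟩, ?_, ?_⟩
  · have := hmap 1
    rw [map_one, map_one] at this
    exact this
  · intro z w
    simp only
    have h1 := huniq (z * w * N) (α z * α w + β z * β w * (y - c)) 
      (α z * β w + β z * α w - b * (β z * β w)) (by
        have e1 : (N : 𝓞 E') * (z * w * N) = (N * z) * (N * w) := by ring
        rw [e1, hαβ z, hαβ w]
        simp only [map_add, map_mul, map_sub, map_intCast]
        rw [← hv']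
        ring)
    have h2 := huniq (z * w * N) (N * α (z * w)) (N * β (z * w)) (by
        have e1 : (N : 𝓞 E') * (z * w * N) = N * (N * (z * w)) := by ring
        rw [e1, hαβ (z * w)]
        simp only [map_mul, map_natCast]
        ring)
    have ha : (N : 𝓞 E) * α (z * w) = α z * α w + β z * β w * (y - c) := by rw [← h2.1, h1.1]
    have hb : (N : 𝓞 E) * β (z * w) = α z * β w + β z * α w - b * (β z * β w) := by
      rw [← h2.2, h1.2]
    have ha' := congrArg φ ha
    have hb' := congrArg φ hb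
    simp only [map_add, map_mul, map_sub, map_intCast, map_natCast] at ha' hb'
    rw [← hx] at ha'
    field_simp
    linear_combination ha' + x * hb'
  · simp only
    have := hmap 0
    rw [map_zero, map_zero] at this
    exact this
  · intro z w
    simp only
    have h1 := huniq (z + w) (α z + α w) (β z + β w) (by
        rw [mul_add, hαβ z, hαβ w]
        simp only [map_add]
        ring)
    rw [h1.1, h1.2, map_add, map_add]
    ring
  · ext a
    exact hmap a
  · change (N : ZMod p)⁻¹ * (φ (α v) + φ (β v) * x) = x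
    have h1 := huniq v 0 N (by rw [map_zero, map_natCast, zero_add])
    rw [h1.1, h1.2, map_zero, map_natCast, zero_add, inv_mul_cancel_left₀ hp]

lemma ext_unique {N : ℕ}
    (hN : ∀ z : 𝓞 E', ∃ α β : 𝓞 E, (N : 𝓞 E') * z =
        algebraMap (𝓞 E) (𝓞 E') α + algebraMap (𝓞 E) (𝓞 E') β * v)
    {p : ℕ} [Fact p.Prime] (hp : (N : ZMod p) ≠ 0) {φ ψ : 𝓞 E' →+* ZMod p}
    (h : φ.comp (algebraMap (𝓞 E) (𝓞 E')) = ψ.comp (algebraMap (𝓞 E) (𝓞 E')))
    (hv : φ v = ψ v) : φ = ψ := by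
  ext z
  obtain ⟨α, β, hz⟩ := hN z
  have h1 := congrArg φ hz
  have h2 := congrArg ψ hz
  rw [map_mul, map_natCast, map_add, map_mul] at h1 h2
  have ha := RingHom.congr_fun h α
  have hb := RingHom.congr_fun h β
  simp only [RingHom.comp_apply] at ha hb
  rw [← ha, ← hb, ← hv, ← h1] at h2
  exact (mul_left_cancel₀ hp h2).symm

/-- the condition defining the weights -/
def cond (b c : ℤ) (p : ℕ) (L : List (ℕ × 𝓞 E)) (φ : 𝓞 E →+* ZMod p) : Prop :=
  ∀ q ∈ L, ∃ x : ZMod p, (fp b c p)^[q.1] x = φ q.2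

/-- number of homomorphisms satisfying the condition -/
noncomputable def HC (b c : ℤ) (p : ℕ) (L : List (ℕ × 𝓞 E)) : ℕ :=
  Nat.card {φ : 𝓞 E →+* ZMod p // cond b c p L φ}

lemma cond_cons {p : ℕ} {q : ℕ × 𝓞 E} {L : List (ℕ × 𝓞 E)} {φ : 𝓞 E →+* ZMod p} :
    cond b c p (q :: L) φ ↔ (∃ x : ZMod p, (fp b c p)^[q.1] x = φ q.2) ∧ cond b c p L φ := by
  unfold cond
  simp

lemma cond_mapL {p : ℕ} {L : List (ℕ × 𝓞 E)} {φ' : 𝓞 E' →+* ZMod p} :
    cond b c p (mapL E' L) φ' ↔ cond b c p L (φ'.comp (algebraMap (𝓞 E) (𝓞 E'))) := by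
  unfold cond mapL
  rw [List.forall_mem_map]
  rfl

/-- **Counting identity.** -/
theorem count_identity (hD : ¬ IsSquare (4 * (y : E) + b ^ 2 - 4 * c))
    (hv : (v : E') ^ 2 + b * v + c = algebraMap E E' y) {v₂ : 𝓞 E'} (hv₂ : (v₂ : E') = -b - v)
    {N : ℕ} (hND : (2 * (4 * y + b ^ 2 - 4 * c) : 𝓞 E) ∣ (N : 𝓞 E))
    (hN : ∀ z : 𝓞 E', ∃ α β : 𝓞 E, (N : 𝓞 E') * z =
        algebraMap (𝓞 E) (𝓞 E') α + algebraMap (𝓞 E) (𝓞 E') β * v)
    {p : ℕ} [Fact p.Prime] (hp : (N : ZMod p) ≠ 0) (C : ℕ) (L : List (ℕ × 𝓞 E)) :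
    2 * HC b c p ((C + 1, y) :: L) + HC b c p ((C, v) :: (C, v₂) :: mapL E' L) =
      HC b c p ((C, v) :: mapL E' L) + HC b c p ((C, v₂) :: mapL E' L) := by
  classical
  have hfin1 : Fintype (𝓞 E →+* ZMod p) := @Fintype.ofFinite _ (hom_finite E p)
  have hfin2 : Fintype (𝓞 E' →+* ZMod p) := @Fintype.ofFinite _ (hom_finite E' p)
  have hcard1 : ∀ L : List (ℕ × 𝓞 E), HC b c p L = (Finset.univ.filter (cond b c p L)).card := by
    intro L
    unfold HC
    rw [Nat.card_eq_fintype_card, Fintype.card_subtype]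
  have hcard2 : ∀ L : List (ℕ × 𝓞 E'), HC b c p L = (Finset.univ.filter (cond b c p L)).card := by
    intro L
    unfold HC
    rw [Nat.card_eq_fintype_card, Fintype.card_subtype]
  rw [hcard1, hcard2, hcard2, hcard2]
  set ι : 𝓞 E →+* 𝓞 E' := algebraMap (𝓞 E) (𝓞 E') with hι
  set S₁ := Finset.univ.filter (cond b c p ((C, v) :: mapL E' L)) with hS₁
  set S₂ := Finset.univ.filter (cond b c p ((C, v₂) :: mapL E' L)) with hS₂
  set X := Finset.univ.filter (cond b c p ((C + 1, y) :: L)) with hX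
  have hinter : Finset.univ.filter (cond b c p ((C, v) :: (C, v₂) :: mapL E' L)) = S₁ ∩ S₂ := by
    ext φ'
    simp only [hS₁, hS₂, Finset.mem_inter, Finset.mem_filter, Finset.mem_univ, true_and, cond_cons]
    tauto
  have hv' := hv_int hv
  have hv₂' : v₂ = -b - v := by
    apply RingOfIntegers.coe_injective
    change (v₂ : E') = ((-b - v : 𝓞 E') : E')
    rw [hv₂]
    simp only [map_sub, map_neg, map_intCast]
  -- φ' v is a root
  have hroot : ∀ φ' : 𝓞 E' →+* ZMod p, fp b c p (φ' v) = (φ'.comp ι) y := by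
    intro φ'
    have h1 := congrArg φ' hv'
    simp only [map_add, map_mul, map_pow, map_intCast] at h1
    exact h1
  have hφv₂ : ∀ φ' : 𝓞 E' →+* ZMod p, φ' v₂ = -b - φ' v := by
    intro φ'
    rw [hv₂', map_sub, map_neg, map_intCast]
  -- membership in the union
  have hmem : ∀ φ' : 𝓞 E' →+* ZMod p, φ' ∈ S₁ ∪ S₂ ↔ φ'.comp ι ∈ X := by
    intro φ'
    simp only [hS₁, hS₂, hX, Finset.mem_union, Finset.mem_filter, Finset.mem_univ, true_and,
      cond_cons, cond_mapL]
    have key : ((∃ x, (fp b c p)^[C] x = φ' v) ∨ (∃ x, (fp b c p)^[C] x = φ' v₂)) ↔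
        ∃ x, (fp b c p)^[C + 1] x = (φ'.comp ι) y := by
      constructor
      · rintro (⟨x, hx⟩ | ⟨x, hx⟩)
        · refine ⟨x, ?_⟩
          rw [Function.iterate_succ_apply', hx, hroot]
        · refine ⟨x, ?_⟩
          rw [Function.iterate_succ_apply', hx, hφv₂, ← hroot]
          simp only [fp]
          ring
      · rintro ⟨x, hx⟩
        rw [Function.iterate_succ_apply', ← hroot] at hx
        have h2 : ((fp b c p)^[C] x - φ' v) * ((fp b c p)^[C] x - φ' v₂) = 0 := by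
          rw [hφv₂]
          simp only [fp] at hx ⊢
          linear_combination hx
        rcases mul_eq_zero.mp h2 with h | h
        · exact Or.inl ⟨x, sub_eq_zero.mp h⟩
        · exact Or.inr ⟨x, sub_eq_zero.mp h⟩
    rw [← key]
    tauto
  have hunion : (S₁ ∪ S₂).card = 2 * X.card := by
    rw [Finset.card_eq_sum_card_fiberwise (f := fun φ' => φ'.comp ι) (t := X)
      (fun φ' h => (hmem φ').mp h)]
    rw [Finset.sum_const_nat (m := 2), mul_comm]
    intro φ hφ
    -- a root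
    have hφX := hφ
    simp only [hX, Finset.mem_filter, Finset.mem_univ, true_and, cond_cons] at hφ
    obtain ⟨⟨x, hx⟩, -⟩ := hφ
    rw [Function.iterate_succ_apply'] at hx
    set x₁ := (fp b c p)^[C] x with hx₁
    have hx1 : x₁ ^ 2 + b * x₁ + c = φ y := hx
    have hx2 : (-b - x₁) ^ 2 + b * (-b - x₁) + c = φ y := by rw [← hx1]; ring
    obtain ⟨φ₁, hφ₁, hφ₁v⟩ := ext_exists hD hv hN hp φ hx1
    obtain ⟨φ₂, hφ₂, hφ₂v⟩ := ext_exists hD hv hN hp φ hx2
    have hne : x₁ ≠ -b - x₁ := by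
      intro h
      obtain ⟨e, he⟩ := hND
      have h1 := congrArg φ he
      simp only [map_natCast, map_mul, map_sub, map_add, map_pow, map_intCast, map_ofNat] at h1
      apply hp
      rw [h1, ← hx1]
      have h3 : (2 * x₁ + b) = 0 := by linear_combination h
      have h4 : 4 * (x₁ ^ 2 + b * x₁ + c) + (b : ZMod p) ^ 2 - 4 * c = (2 * x₁ + b) ^ 2 := by ring
      rw [h4, h3]
      ring
    have hfib : (Finset.filter (fun φ' : 𝓞 E' →+* ZMod p => φ'.comp ι = φ) (S₁ ∪ S₂)) =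
        {φ₁, φ₂} := by
      ext φ'
      simp only [Finset.mem_filter, Finset.mem_insert, Finset.mem_singleton]
      constructor
      · rintro ⟨-, h⟩
        have h1 := hroot φ'
        rw [h, ← hx1] at h1
        have h2 : (φ' v - x₁) * (φ' v - (-b - x₁)) = 0 := by
          simp only [fp] at h1
          linear_combination h1
        rcases mul_eq_zero.mp h2 with h3 | h3
        · left
          refine ext_unique hN hp (by rw [← hι, h, hφ₁]) ?_
          rw [hφ₁v]
          exact sub_eq_zero.mp h3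
        · right
          refine ext_unique hN hp (by rw [← hι, h, hφ₂]) ?_
          rw [hφ₂v]
          exact sub_eq_zero.mp h3
      · rintro (rfl | rfl)
        · exact ⟨(hmem _).mpr (by rw [hφ₁]; exact hφX), hφ₁⟩
        · exact ⟨(hmem _).mpr (by rw [hφ₂]; exact hφX), hφ₂⟩
    rw [hfib, Finset.card_pair]
    rintro rfl
    exact hne (hφ₁v.symm.trans hφ₂v)
  rw [hinter, ← hunion, Finset.card_union_add_card_inter]

end

end Pool.Agent.H484R2
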